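import Pool.Agent.T6.H7.PF.Defs

/-!
Project PF (MP_86f7a7_co): module P, packing.
-/

set_option autoImplicit false

namespace Pool.Agent.T6.H87.PF

open Pool.Agent.T6.H7.PF Metric Set MeasureTheory Module

/-- Packing: points of norm at most `r` with mutual distances at least `1` in dimension `e` are at
most `(2 r + 1) ^ e`. -/
theorem card_le_sep {E : Type*} [NormedAddCommGroup E] [NormedSpace ℝ E] [FiniteDimensional ℝ E]
    (s : Finset E) (r : ℝ) (hr : 0 ≤ r) (hs : ∀ c ∈ s, ‖c‖ ≤ r)
    (h : ∀ c ∈ s, ∀ d ∈ s, c ≠ d → 1 ≤ ‖c - d‖) : (s.card : ℝ) ≤ (2 * r + 1) ^ finrank ℝ E := by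
  borelize E
  let μ : Measure E := Measure.addHaar
  let δ : ℝ := (1 : ℝ) / 2
  let ρ : ℝ := r + 1 / 2
  have ρpos : 0 < ρ := by positivity
  set A := ⋃ c ∈ s, ball (c : E) δ with hA
  have D : Set.Pairwise (s : Set E) (Function.onFun Disjoint fun c => ball (c : E) δ) := by
    rintro c hc d hd hcd
    apply ball_disjoint_ball
    rw [dist_eq_norm]
    have := h c hc d hd hcd
    have h2 : δ + δ = 1 := by norm_num [δ]
    linarith
  have A_subset : A ⊆ ball (0 : E) ρ := by
    refine iUnion₂_subset fun x hx => ?_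
    apply ball_subset_ball'
    calc
      δ + dist x 0 ≤ δ + r := by rw [dist_zero_right]; exact add_le_add le_rfl (hs x hx)
      _ = ρ := by simp only [δ, ρ]; ring
  have I :
    (s.card : ENNReal) * ENNReal.ofReal (δ ^ finrank ℝ E) * μ (ball 0 1) ≤
      ENNReal.ofReal (ρ ^ finrank ℝ E) * μ (ball 0 1) :=
    calc
      (s.card : ENNReal) * ENNReal.ofReal (δ ^ finrank ℝ E) * μ (ball 0 1) = μ A := by
        rw [hA, measure_biUnion_finset D fun c _ => measurableSet_ball]
        have I : 0 < δ := by norm_num [δ]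
        simp only [μ.addHaar_ball_of_pos _ I]
        simp only [Finset.sum_const, nsmul_eq_mul, mul_assoc]
      _ ≤ μ (ball (0 : E) ρ) := measure_mono A_subset
      _ = ENNReal.ofReal (ρ ^ finrank ℝ E) * μ (ball 0 1) := by
        simp only [μ.addHaar_ball_of_pos _ ρpos]
  have J : (s.card : ENNReal) * ENNReal.ofReal (δ ^ finrank ℝ E) ≤
      ENNReal.ofReal (ρ ^ finrank ℝ E) :=
    (ENNReal.mul_le_mul_iff_left (measure_ball_pos _ _ zero_lt_one).ne' measure_ball_lt_top.ne).1 I
  have K : (s.card : ℝ) * δ ^ finrank ℝ E ≤ ρ ^ finrank ℝ E := by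
    have := ENNReal.toReal_le_of_le_ofReal (pow_nonneg ρpos.le _) J
    rwa [ENNReal.toReal_mul, ENNReal.toReal_natCast, ENNReal.toReal_ofReal (by positivity)] at this
  have h2 : (2 * r + 1) ^ finrank ℝ E * δ ^ finrank ℝ E = ρ ^ finrank ℝ E := by
    rw [← mul_pow]
    congr 1
    simp only [δ, ρ]
    ring
  rw [← h2] at K
  exact le_of_mul_le_mul_right K (by positivity)

/-- Packing in a subspace, with the scale `u`. -/
theorem card_le_sep' {n : ℕ} (V : Submodule ℝ (E n)) (s : Finset (E n)) (hsV : ∀ x ∈ s, x ∈ V)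
    (r u : ℝ) (hr : 0 ≤ r) (hu : 0 < u) (hs : ∀ c ∈ s, ‖c‖ ≤ r)
    (h : ∀ c ∈ s, ∀ d ∈ s, c ≠ d → u ≤ ‖c - d‖) :
    (s.card : ℝ) ≤ (1 + 2 * r / u) ^ finrank ℝ V := by
  classical
  let f : {x // x ∈ s} → V := fun x => u⁻¹ • (⟨x.1, hsV x.1 x.2⟩ : V)
  have hf : Function.Injective f := by
    intro x y hxy
    have h1 : (⟨x.1, hsV x.1 x.2⟩ : V) = ⟨y.1, hsV y.1 y.2⟩ :=
      smul_right_injective V (inv_ne_zero hu.ne') hxy
    have h2 : x.1 = y.1 := congrArg (fun z : V => (z : E n)) h1
    exact Subtype.ext h2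
  have hc : (s.attach.image f).card = s.card := by
    rw [Finset.card_image_of_injective _ hf, Finset.card_attach]
  have key := card_le_sep (s.attach.image f) (r / u) (by positivity) ?_ ?_
  · rw [hc] at key
    refine key.trans (le_of_eq ?_)
    congr 1
    ring
  · intro c hc
    obtain ⟨x, -, rfl⟩ := Finset.mem_image.1 hc
    have : ‖f x‖ = u⁻¹ * ‖x.1‖ := by
      rw [Submodule.coe_norm]
      change ‖u⁻¹ • x.1‖ = _
      rw [norm_smul, Real.norm_of_nonneg (inv_nonneg.2 hu.le)]
    rw [this, div_eq_inv_mul]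
    exact mul_le_mul_of_nonneg_left (hs _ x.2) (inv_nonneg.2 hu.le)
  · intro c hc d hd hcd
    obtain ⟨x, -, rfl⟩ := Finset.mem_image.1 hc
    obtain ⟨y, -, rfl⟩ := Finset.mem_image.1 hd
    have hxy : x.1 ≠ y.1 := by
      intro h0
      exact hcd (by rw [Subtype.ext h0])
    have : ‖f x - f y‖ = u⁻¹ * ‖x.1 - y.1‖ := by
      rw [Submodule.coe_norm]
      change ‖u⁻¹ • x.1 - u⁻¹ • y.1‖ = _
      rw [← smul_sub, norm_smul, Real.norm_of_nonneg (inv_nonneg.2 hu.le)]
    rw [this]
    have h1 := h _ x.2 _ y.2 hxy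
    calc (1 : ℝ) = u⁻¹ * u := (inv_mul_cancel₀ hu.ne').symm
      _ ≤ _ := mul_le_mul_of_nonneg_left h1 (inv_nonneg.2 hu.le)

theorem p1 : StmtP1 := by
  intro n L V u hLV hu hmin
  have bd : ∀ (r : ℝ), 0 ≤ r → ∀ s : Finset (E n), (s : Set (E n)) ⊆ bal L r →
      (s.card : ℝ) ≤ (1 + 2 * r / u) ^ finrank ℝ V := by
    intro r hr s hs
    refine card_le_sep' V s (fun x hx => hLV (hs hx).1) r u hr hu (fun x hx => (hs hx).2) ?_
    intro c hc d hd hcd
    exact hmin _ (L.sub_mem (hs hc).1 (hs hd).1) (sub_ne_zero.2 hcd)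
  have fin : FinBalls L := by
    intro r
    by_contra hinf
    have hinf' : (bal L |r|).Infinite := by
      refine Set.Infinite.mono ?_ hinf
      intro x hx
      exact ⟨hx.1, hx.2.trans (le_abs_self r)⟩
    obtain ⟨t, ht, hc⟩ := hinf'.exists_subset_card_eq
      (⌊(1 + 2 * |r| / u) ^ finrank ℝ V⌋₊ + 1)
    have h1 := bd |r| (abs_nonneg r) t ht
    rw [hc] at h1
    have h2 := Nat.lt_floor_add_one ((1 + 2 * |r| / u) ^ finrank ℝ V)
    push_cast at h1
    linarith
  refine ⟨fin, ?_⟩
  intro r hr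
  unfold cnt
  rw [Set.ncard_eq_toFinset_card _ (fin r)]
  exact bd r hr _ (by simp)

theorem p2 : StmtP2 := by
  classical
  intro n L V hLV fin r hr
  set S := (fin (2 * r)).toFinset with hS
  set T := (fin r).toFinset with hT
  have hcS : cnt L (2 * r) = S.card := Set.ncard_eq_toFinset_card _ (fin (2 * r))
  have hcT : cnt L r = T.card := Set.ncard_eq_toFinset_card _ (fin r)
  let F : Finset (Finset (E n)) := S.powerset.filter
    (fun X => ∀ c ∈ X, ∀ d ∈ X, c ≠ d → r < ‖c - d‖)
  have hF : F.Nonempty := ⟨∅, by simp [F]⟩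
  obtain ⟨X, hX, hmax⟩ := F.exists_max_image Finset.card hF
  simp only [F, Finset.mem_filter, Finset.mem_powerset] at hX
  have hXc : (X.card : ℝ) ≤ 5 ^ finrank ℝ V := by
    have := card_le_sep' V X (fun x hx => hLV (by
      have := hX.1 hx
      simp only [hS, Set.Finite.mem_toFinset] at this
      exact this.1)) (2 * r) r (by positivity) hr (fun x hx => by
      have := hX.1 hx
      simp only [hS, Set.Finite.mem_toFinset] at this
      exact this.2) (fun c hc d hd hcd => (hX.2 c hc d hd hcd).le)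
    refine this.trans (le_of_eq ?_)
    congr 1
    field_simp
    norm_num
  have hcov : S ⊆ (X ×ˢ T).image (fun p => p.1 + p.2) := by
    intro x hx
    have hxS := hx
    simp only [hS, Set.Finite.mem_toFinset] at hx
    obtain ⟨c, hc, hcx⟩ : ∃ c ∈ X, ‖x - c‖ ≤ r := by
      by_contra hno
      push Not at hno
      have hxX : x ∉ X := by
        intro hxX
        have := hno x hxX
        simp at this
        linarith
      have hmem : insert x X ∈ F := by
        simp only [F, Finset.mem_filter, Finset.mem_powerset]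
        refine ⟨Finset.insert_subset hxS hX.1, ?_⟩
        intro c hc d hd hcd
        rw [Finset.mem_insert] at hc hd
        rcases hc with rfl | hc <;> rcases hd with rfl | hd
        · exact absurd rfl hcd
        · exact hno d hd
        · rw [norm_sub_rev]; exact hno c hc
        · exact hX.2 c hc d hd hcd
      have := hmax _ hmem
      rw [Finset.card_insert_of_notMem hxX] at this
      omega
    refine Finset.mem_image.2 ⟨(c, x - c), ?_, by simp⟩
    rw [Finset.mem_product]
    refine ⟨hc, ?_⟩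
    have hcS' := hX.1 hc
    simp only [hS, Set.Finite.mem_toFinset] at hcS'
    simp only [hT, Set.Finite.mem_toFinset]
    exact ⟨L.sub_mem hx.1 hcS'.1, hcx⟩
  have h1 : S.card ≤ X.card * T.card :=
    (Finset.card_le_card hcov).trans (Finset.card_image_le.trans (by rw [Finset.card_product]))
  rw [hcS, hcT]
  calc (S.card : ℝ) ≤ X.card * T.card := by exact_mod_cast h1
    _ ≤ 5 ^ finrank ℝ V * T.card := by gcongr

/-- Module P. -/
theorem p : StmtP1 ∧ StmtP2 := ⟨p1, p2⟩

end Pool.Agent.T6.H87.PF
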